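import Pool.Agent.helper23.F2.Spec

set_option autoImplicit false

open scoped BigOperators

namespace Pool.Agent.F2

open Pool.Agent.helper23.TH

theorem AL1_vv {V L : Type} {b s : ℕ} (G : LG V L b s) {k : ℕ} (z : ZMod (2 * k + 2) → V)
    (h : ∀ c, ¬ G.XC (fc c z) (gc c z)) (c : ZMod (2 * k + 2)) (i j : ℕ) (hi : i ≤ k + 1)
    (hj : j ≤ k + 1) (hin : j ≠ 0 ∧ j ≠ k + 1) :
    Disjoint (G.lv (z (c + (i : ZMod (2 * k + 2))))) (G.lv (z (c - (j : ZMod (2 * k + 2))))) := by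
  by_contra hd
  refine h c ⟨.inl ⟨i, by omega⟩, .inl ⟨j, by omega⟩, Or.inr ⟨?_, ?_⟩, hd⟩
  · intro h1
    have h2 := Fin.ext_iff.1 (Sum.inl.inj h1)
    exact hin.1 h2
  · intro h1
    have h2 := Fin.ext_iff.1 (Sum.inl.inj h1)
    exact hin.2 h2

theorem AL1_ev {V L : Type} {b s : ℕ} (G : LG V L b s) {k : ℕ} (z : ZMod (2 * k + 2) → V)
    (h : ∀ c, ¬ G.XC (fc c z) (gc c z)) (c : ZMod (2 * k + 2)) (i j : ℕ) (hi : i ≤ k)
    (hj : j ≤ k + 1) :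
    Disjoint (G.le (z (c + (i : ZMod (2 * k + 2)))) (z (c + ((i + 1 : ℕ) : ZMod (2 * k + 2)))))
      (G.lv (z (c - (j : ZMod (2 * k + 2))))) := by
  by_contra hd
  exact h c ⟨.inr ⟨i, by omega⟩, .inl ⟨j, by omega⟩, Or.inl ⟨by simp, by simp⟩, hd⟩

theorem AL1_ve {V L : Type} {b s : ℕ} (G : LG V L b s) {k : ℕ} (z : ZMod (2 * k + 2) → V)
    (h : ∀ c, ¬ G.XC (fc c z) (gc c z)) (c : ZMod (2 * k + 2)) (i j : ℕ) (hi : i ≤ k + 1)
    (hj : j ≤ k) :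
    Disjoint (G.lv (z (c + (i : ZMod (2 * k + 2)))))
      (G.le (z (c - (j : ZMod (2 * k + 2)))) (z (c - ((j + 1 : ℕ) : ZMod (2 * k + 2))))) := by
  by_contra hd
  exact h c ⟨.inl ⟨i, by omega⟩, .inr ⟨j, by omega⟩, Or.inr ⟨by simp, by simp⟩, hd⟩

theorem AL1_ee {V L : Type} {b s : ℕ} (G : LG V L b s) {k : ℕ} (z : ZMod (2 * k + 2) → V)
    (h : ∀ c, ¬ G.XC (fc c z) (gc c z)) (c : ZMod (2 * k + 2)) (i j : ℕ) (hi : i ≤ k)
    (hj : j ≤ k) :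
    Disjoint (G.le (z (c + (i : ZMod (2 * k + 2)))) (z (c + ((i + 1 : ℕ) : ZMod (2 * k + 2)))))
      (G.le (z (c - (j : ZMod (2 * k + 2)))) (z (c - ((j + 1 : ℕ) : ZMod (2 * k + 2))))) := by
  by_contra hd
  exact h c ⟨.inr ⟨i, by omega⟩, .inr ⟨j, by omega⟩, Or.inr ⟨by simp, by simp⟩, hd⟩

/-- two vertices of `fc` -/
theorem AL1_1 {V L : Type} {b s : ℕ} (G : LG V L b s) {k : ℕ} (hk : 1 ≤ k)
    (z : ZMod (2 * k + 2) → V) (h : ∀ c, ¬ G.XC (fc c z) (gc c z)) (c : ZMod (2 * k + 2)) (i j : ℕ)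
    (hij : i < j) (hj : j ≤ k + 1) :
    Disjoint (G.lv (z (c + (i : ZMod (2 * k + 2))))) (G.lv (z (c + (j : ZMod (2 * k + 2))))) := by
  obtain ⟨d, rfl⟩ := Nat.exists_eq_add_of_lt hij
  have h1 := AL1_vv G z h (c + ((i + 1 : ℕ) : ZMod (2 * k + 2))) d 1 (by omega) (by omega)
    ⟨by omega, by omega⟩
  have h2 : c + ((i + 1 : ℕ) : ZMod (2 * k + 2)) + (d : ZMod (2 * k + 2)) =
      c + ((i + d + 1 : ℕ) : ZMod (2 * k + 2)) := by
    push_cast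
    ring
  have h3 : c + ((i + 1 : ℕ) : ZMod (2 * k + 2)) - ((1 : ℕ) : ZMod (2 * k + 2)) =
      c + (i : ZMod (2 * k + 2)) := by
    push_cast
    ring
  rw [h2, h3] at h1
  exact h1.symm

/-- a vertex and an edge of `fc` -/
theorem AL1_2 {V L : Type} {b s : ℕ} (G : LG V L b s) {k : ℕ}
    (z : ZMod (2 * k + 2) → V) (h : ∀ c, ¬ G.XC (fc c z) (gc c z)) (c : ZMod (2 * k + 2)) (i j : ℕ)
    (hi : i ≤ k + 1) (hj : j ≤ k) :
    Disjoint (G.lv (z (c + (i : ZMod (2 * k + 2)))))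
      (G.le (z (c + (j : ZMod (2 * k + 2)))) (z (c + ((j + 1 : ℕ) : ZMod (2 * k + 2))))) := by
  by_cases hij : i ≤ j
  · obtain ⟨d, rfl⟩ := Nat.exists_eq_add_of_le hij
    have h1 := AL1_ev G z h (c + (i : ZMod (2 * k + 2))) d 0 (by omega) (by omega)
    have h2 : c + (i : ZMod (2 * k + 2)) + (d : ZMod (2 * k + 2)) =
        c + ((i + d : ℕ) : ZMod (2 * k + 2)) := by
      push_cast
      ring
    have h3 : c + (i : ZMod (2 * k + 2)) + ((d + 1 : ℕ) : ZMod (2 * k + 2)) =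
        c + ((i + d + 1 : ℕ) : ZMod (2 * k + 2)) := by
      push_cast
      ring
    have h4 : c + (i : ZMod (2 * k + 2)) - ((0 : ℕ) : ZMod (2 * k + 2)) =
        c + (i : ZMod (2 * k + 2)) := by
      push_cast
      ring
    rw [h2, h3, h4] at h1
    exact h1.symm
  · obtain ⟨d, rfl⟩ := Nat.exists_eq_add_of_lt (not_le.1 hij)
    have h1 := AL1_ve G z h (c + ((j + 1 : ℕ) : ZMod (2 * k + 2))) d 0 (by omega) (by omega)
    have h2 : c + ((j + 1 : ℕ) : ZMod (2 * k + 2)) + (d : ZMod (2 * k + 2)) =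
        c + ((j + d + 1 : ℕ) : ZMod (2 * k + 2)) := by
      push_cast
      ring
    have h3 : c + ((j + 1 : ℕ) : ZMod (2 * k + 2)) - ((0 : ℕ) : ZMod (2 * k + 2)) =
        c + ((j + 1 : ℕ) : ZMod (2 * k + 2)) := by
      push_cast
      ring
    have h4 : c + ((j + 1 : ℕ) : ZMod (2 * k + 2)) - ((0 + 1 : ℕ) : ZMod (2 * k + 2)) =
        c + (j : ZMod (2 * k + 2)) := by
      push_cast
      ring
    rw [h2, h3, h4, G.lsymm] at h1
    exact h1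

/-- two edges of `fc` -/
theorem AL1_3 {V L : Type} {b s : ℕ} (G : LG V L b s) {k : ℕ}
    (z : ZMod (2 * k + 2) → V) (h : ∀ c, ¬ G.XC (fc c z) (gc c z)) (c : ZMod (2 * k + 2)) (i j : ℕ)
    (hij : i < j) (hj : j ≤ k) :
    Disjoint (G.le (z (c + (i : ZMod (2 * k + 2)))) (z (c + ((i + 1 : ℕ) : ZMod (2 * k + 2)))))
      (G.le (z (c + (j : ZMod (2 * k + 2)))) (z (c + ((j + 1 : ℕ) : ZMod (2 * k + 2))))) := by
  obtain ⟨d, rfl⟩ := Nat.exists_eq_add_of_lt hij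
  have h1 := AL1_ee G z h (c + ((i + 1 : ℕ) : ZMod (2 * k + 2))) d 0 (by omega) (by omega)
  have h2 : c + ((i + 1 : ℕ) : ZMod (2 * k + 2)) + (d : ZMod (2 * k + 2)) =
      c + ((i + d + 1 : ℕ) : ZMod (2 * k + 2)) := by
    push_cast
    ring
  have h3 : c + ((i + 1 : ℕ) : ZMod (2 * k + 2)) + ((d + 1 : ℕ) : ZMod (2 * k + 2)) =
      c + ((i + d + 1 + 1 : ℕ) : ZMod (2 * k + 2)) := by
    push_cast
    ring
  have h4 : c + ((i + 1 : ℕ) : ZMod (2 * k + 2)) - ((0 : ℕ) : ZMod (2 * k + 2)) =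
      c + ((i + 1 : ℕ) : ZMod (2 * k + 2)) := by
    push_cast
    ring
  have h5 : c + ((i + 1 : ℕ) : ZMod (2 * k + 2)) - ((0 + 1 : ℕ) : ZMod (2 * k + 2)) =
      c + (i : ZMod (2 * k + 2)) := by
    push_cast
    ring
  rw [h2, h3, h4, h5, G.lsymm (z (c + ((i + 1 : ℕ) : ZMod (2 * k + 2))))] at h1
  exact h1.symm

theorem AL1_fc {V L : Type} {b s : ℕ} (G : LG V L b s) {k : ℕ} (hk : 1 ≤ k)
    (z : ZMod (2 * k + 2) → V) (h : ∀ c, ¬ G.XC (fc c z) (gc c z)) (c : ZMod (2 * k + 2)) :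
    G.Cln (fc c z) := by
  rintro (⟨i, hi⟩ | ⟨i, hi⟩) (⟨j, hj⟩ | ⟨j, hj⟩) hne
  · have hij : i ≠ j := fun h1 => hne (by subst h1; rfl)
    rcases lt_or_gt_of_ne hij with h1 | h1
    · exact AL1_1 G hk z h c i j h1 (by omega)
    · exact (AL1_1 G hk z h c j i h1 (by omega)).symm
  · exact AL1_2 G z h c i j (by omega) (by omega)
  · exact (AL1_2 G z h c j i (by omega) (by omega)).symm
  · have hij : i ≠ j := fun h1 => hne (by subst h1; rfl)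
    rcases lt_or_gt_of_ne hij with h1 | h1
    · exact AL1_3 G z h c i j h1 (by omega)
    · exact (AL1_3 G z h c j i h1 (by omega)).symm

theorem AL1 : AL1_stmt := by
  intro V L b s G k z hk h c
  refine ⟨AL1_fc G hk z h c, ?_⟩
  have h1 : ∀ c : ZMod (2 * k + 2), fc c (fun i => z (-i)) = gc (-c) z := by
    intro c
    funext i
    change z (-(c + (i.1 : ZMod (2 * k + 2)))) = z (-c - (i.1 : ZMod (2 * k + 2)))
    congr 1
    ring
  have h2 : ∀ c : ZMod (2 * k + 2), gc c (fun i => z (-i)) = fc (-c) z := by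
    intro c
    funext i
    change z (-(c - (i.1 : ZMod (2 * k + 2)))) = z (-c + (i.1 : ZMod (2 * k + 2)))
    congr 1
    ring
  have h3 := AL1_fc G hk (fun i => z (-i)) (fun c => by
    rw [h1, h2]
    rintro ⟨o, o', h4, h5⟩
    exact h (-c) ⟨o', o, h4.symm, fun h6 => h5 h6.symm⟩) (-c)
  rw [h1, neg_neg] at h3
  exact h3

end Pool.Agent.F2
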